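import Pool.Agent.Lib.MP_27a2ed_lc.Flow

set_option autoImplicit false

namespace Pool.Agent.Lib.MP_27a2ed_lc

open Set Topology

section
variable {X : Type*} (g : ℕ → X → X) (hinv : ∀ n x, g n (g n x) = x)

/-- the involution coding the given involutions along a ray -/
def S1fun : X × ℕ × Fin 3 → X × ℕ × Fin 3
  | (x, 0, 0) => (x, 0, 0)
  | (x, n + 1, 0) => (x, n, 2)
  | (x, n, 1) => (g n x, n, 1)
  | (x, n, 2) => (x, n + 1, 0)

lemma S1fun_0 (x : X) : S1fun g (x, 0, 0) = (x, 0, 0) := rfl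
lemma S1fun_s (x : X) (n : ℕ) : S1fun g (x, n + 1, 0) = (x, n, 2) := rfl
lemma S1fun_1 (x : X) (n : ℕ) : S1fun g (x, n, 1) = (g n x, n, 1) := by
  cases n <;> rfl
lemma S1fun_2 (x : X) (n : ℕ) : S1fun g (x, n, 2) = (x, n + 1, 0) := by
  cases n <;> rfl

include hinv in
lemma S1fun_invol (u : X × ℕ × Fin 3) : S1fun g (S1fun g u) = u := by
  obtain ⟨x, n, i⟩ := u
  fin_cases i
  · cases n with
    | zero => rfl
    | succ n =>
      show S1fun g (S1fun g (x, n + 1, 0)) = _
      rw [S1fun_s, S1fun_2]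
      rfl
  · show S1fun g (S1fun g (x, n, 1)) = (x, n, 1)
    rw [S1fun_1, S1fun_1, hinv]
  · show S1fun g (S1fun g (x, n, 2)) = (x, n, 2)
    rw [S1fun_2, S1fun_s]

/-- the order three map -/
def T1fun (u : X × ℕ × Fin 3) : X × ℕ × Fin 3 := (u.1, u.2.1, u.2.2 + 1)

lemma T1fun_cube (u : X × ℕ × Fin 3) : T1fun (T1fun (T1fun u)) = u := by
  obtain ⟨x, n, i⟩ := u
  simp only [T1fun, add_assoc]
  have : (1 : Fin 3) + (1 + 1) = 0 := by decide
  rw [this, add_zero]

lemma T1fun_0 (x : X) (n : ℕ) : T1fun (x, n, (0 : Fin 3)) = (x, n, 1) := rfl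
lemma T1fun_2 (x : X) (n : ℕ) : T1fun (x, n, (2 : Fin 3)) = (x, n, 0) :=
  Prod.ext rfl (Prod.ext rfl (by show (2 : Fin 3) + 1 = 0; decide))
lemma T1fun_11 (x : X) (n : ℕ) : T1fun (T1fun (x, n, (1 : Fin 3))) = (x, n, 0) :=
  Prod.ext rfl (Prod.ext rfl (by show (1 : Fin 3) + 1 + 1 = 0; decide))

/-- `S1fun` as a permutation -/
def S1 : Equiv.Perm (X × ℕ × Fin 3) :=
  ⟨S1fun g, S1fun g, S1fun_invol g hinv, S1fun_invol g hinv⟩

/-- `T1fun` as a permutation -/
def T1 : Equiv.Perm (X × ℕ × Fin 3) :=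
  ⟨T1fun, fun u => T1fun (T1fun u), T1fun_cube, T1fun_cube⟩

/-- the action of the free product -/
def sig : Lam →* Equiv.Perm (X × ℕ × Fin 3) :=
  PresentedGroup.toGroup (f := ![S1 g hinv, T1]) (by
    intro r hr
    rcases hr with rfl | rfl
    · simp only [map_pow, FreeGroup.lift_apply_of]
      ext u : 1
      exact S1fun_invol g hinv u
    · simp only [map_pow, FreeGroup.lift_apply_of]
      ext u : 1
      exact T1fun_cube u)

lemma sig_a (u : X × ℕ × Fin 3) : sig g hinv (π (FreeGroup.of 0)) u = S1fun g u := by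
  show sig g hinv (PresentedGroup.of 0) u = _
  rw [sig, PresentedGroup.toGroup.of]
  rfl

lemma sig_b (u : X × ℕ × Fin 3) : sig g hinv (π (FreeGroup.of 1)) u = T1fun u := by
  show sig g hinv (PresentedGroup.of 1) u = _
  rw [sig, PresentedGroup.toGroup.of]
  rfl

/-- a single move from `(x,n,0)` to `(x,n+1,0)` -/
lemma move_right (x : X) (n : ℕ) : S1fun g (T1fun (T1fun (x, n, 0))) = (x, n + 1, 0) := by
  have h : T1fun (T1fun (x, n, (0 : Fin 3))) = (x, n, 2) := rfl
  rw [h, S1fun_2]

lemma exists_move (n : ℕ) : ∃ l : Lam, ∀ x : X, sig g hinv l (x, 0, 0) = (x, n, 0) := by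
  induction n with
  | zero => exact ⟨1, fun x => by simp⟩
  | succ n ih =>
    obtain ⟨l, hl⟩ := ih
    refine ⟨π (FreeGroup.of 0) * (π (FreeGroup.of 1) * (π (FreeGroup.of 1) * l)), fun x => ?_⟩
    rw [map_mul, map_mul, map_mul, Equiv.Perm.mul_apply, Equiv.Perm.mul_apply,
      Equiv.Perm.mul_apply, hl, sig_b, sig_b, sig_a, move_right]

lemma exists_apply (n : ℕ) : ∃ l : Lam, ∀ x : X, sig g hinv l (x, 0, 0) = (g n x, 0, 0) := by
  obtain ⟨l, hl⟩ := exists_move g hinv n
  refine ⟨l⁻¹ * (π (FreeGroup.of 1) * (π (FreeGroup.of 1) * (π (FreeGroup.of 0) *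
    (π (FreeGroup.of 1) * l)))), fun x => ?_⟩
  rw [map_mul, map_mul, map_mul, map_mul, map_mul, Equiv.Perm.mul_apply, Equiv.Perm.mul_apply,
    Equiv.Perm.mul_apply, Equiv.Perm.mul_apply, Equiv.Perm.mul_apply, hl, sig_b, sig_a, sig_b,
    sig_b, map_inv, Equiv.Perm.inv_eq_iff_eq, hl]
  rw [T1fun_0, S1fun_1, T1fun_11]

variable (E : X → X → Prop) (hE : Equivalence E) (hgE : ∀ n x, E x (g n x))

include hE hgE in
lemma S1fun_E (u : X × ℕ × Fin 3) : E u.1 (S1fun g u).1 := by
  obtain ⟨x, n, i⟩ := u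
  fin_cases i
  · cases n with
    | zero => exact hE.refl x
    | succ n => exact hE.refl x
  · show E x (S1fun g (x, n, 1)).1
    rw [S1fun_1]
    exact hgE n x
  · show E x (S1fun g (x, n, 2)).1
    rw [S1fun_2]
    exact hE.refl x

include hE hgE in
lemma sig_E (w : F2) (u : X × ℕ × Fin 3) : E u.1 (sig g hinv (π w) u).1 := by
  induction w using FreeGroup.induction_on generalizing u with
  | C1 => simpa using hE.refl _
  | of i =>
    fin_cases i
    · show E u.1 (sig g hinv (π (FreeGroup.of 0)) u).1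
      rw [sig_a]; exact S1fun_E g E hE hgE u
    · show E u.1 (sig g hinv (π (FreeGroup.of 1)) u).1
      rw [sig_b]; exact hE.refl _
  | inv_of i ih =>
    have h := ih (sig g hinv (π (FreeGroup.of i)⁻¹) u)
    rw [map_inv, map_inv] at h ⊢
    have h2 : (sig g hinv (π (FreeGroup.of i))) ((sig g hinv (π (FreeGroup.of i)))⁻¹ u) = u := by
      simp
    rw [h2] at h
    exact hE.symm h
  | mul x y ihx ihy =>
    rw [map_mul, map_mul, Equiv.Perm.mul_apply]
    exact hE.trans (ihy u) (ihx _)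

/-- symbol attached to a point; `cd` is a binary coding of the space -/
def psi (cd : X → ℕ → Bool) (u : X × ℕ × Fin 3) : Fin 5 :=
  if u.2.2 = 0 then 0 else if u.2.2 = 1 then (if cd u.1 u.2.1 then 1 else 0) else 2

lemma psi_0 (cd : X → ℕ → Bool) (x : X) (n : ℕ) : psi cd (x, n, 0) = 0 := rfl
lemma psi_1 (cd : X → ℕ → Bool) (x : X) (n : ℕ) :
    psi cd (x, n, 1) = if cd x n then 1 else 0 := rfl
lemma psi_2 (cd : X → ℕ → Bool) (x : X) (n : ℕ) : psi cd (x, n, 2) = 2 := rfl

lemma psi_eq_two (cd : X → ℕ → Bool) (u : X × ℕ × Fin 3) : psi cd u = 2 ↔ u.2.2 = 2 := by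
  obtain ⟨x, n, i⟩ := u
  fin_cases i
  · simp [psi]
  · simp only [psi]
    split_ifs <;> simp_all
  · simp [psi]

/-- same itinerary -/
def Itin (cd : X → ℕ → Bool) (u u' : X × ℕ × Fin 3) : Prop :=
  ∀ l : Lam, psi cd (sig g hinv l u) = psi cd (sig g hinv l u')

variable {g hinv} {cd : X → ℕ → Bool}

lemma Itin.psi_eq {u u' : X × ℕ × Fin 3} (h : Itin g hinv cd u u') : psi cd u = psi cd u' := by
  simpa using h 1

lemma Itin.S {u u' : X × ℕ × Fin 3} (h : Itin g hinv cd u u') :
    Itin g hinv cd (S1fun g u) (S1fun g u') := by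
  intro l
  have := h (l * π (FreeGroup.of 0))
  rw [map_mul, Equiv.Perm.mul_apply, Equiv.Perm.mul_apply, sig_a, sig_a] at this
  exact this

lemma Itin.T {u u' : X × ℕ × Fin 3} (h : Itin g hinv cd u u') :
    Itin g hinv cd (T1fun u) (T1fun u') := by
  intro l
  have := h (l * π (FreeGroup.of 1))
  rw [map_mul, Equiv.Perm.mul_apply, Equiv.Perm.mul_apply, sig_b, sig_b] at this
  exact this

lemma Itin.idx {u u' : X × ℕ × Fin 3} (h : Itin g hinv cd u u') : u.2.2 = u'.2.2 := by
  have h0 := (psi_eq_two cd u).symm.trans ((by rw [h.psi_eq]) : psi cd u = 2 ↔ psi cd u' = 2)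
  have h0 := h0.trans (psi_eq_two cd u')
  have h1 := (psi_eq_two cd (T1fun u)).symm.trans
    ((by rw [h.T.psi_eq]) : psi cd (T1fun u) = 2 ↔ psi cd (T1fun u') = 2)
  have h1 := h1.trans (psi_eq_two cd (T1fun u'))
  obtain ⟨x, n, i⟩ := u
  obtain ⟨x', n', i'⟩ := u'
  simp only [T1fun] at h0 h1 ⊢
  have key : ∀ i i' : Fin 3, (i = 2 ↔ i' = 2) → (i + 1 = 2 ↔ i' + 1 = 2) → i = i' := by decide
  exact key _ _ h0 h1

lemma itin_base (x x' : X) (n n' : ℕ) (h : Itin g hinv cd (x, n, 0) (x', n', 0)) :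
    n = n' ∧ Itin g hinv cd (x, 0, 0) (x', 0, 0) := by
  induction n generalizing n' with
  | zero =>
    cases n' with
    | zero => exact ⟨rfl, h⟩
    | succ m =>
      have h1 := h.S.psi_eq
      rw [S1fun_0, S1fun_s, psi_0, psi_2] at h1
      exact absurd h1 (by decide)
  | succ k ih =>
    cases n' with
    | zero =>
      have h1 := h.S.psi_eq
      rw [S1fun_0, S1fun_s, psi_0, psi_2] at h1
      exact absurd h1 (by decide)
    | succ m =>
      have h1 := h.S
      rw [S1fun_s, S1fun_s] at h1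
      obtain ⟨h2, h3⟩ := ih m h1.T
      exact ⟨by rw [h2], h3⟩

lemma itin_right (x x' : X) (h : Itin g hinv cd (x, 0, 0) (x', 0, 0)) (n : ℕ) :
    Itin g hinv cd (x, n, 0) (x', n, 0) := by
  induction n with
  | zero => exact h
  | succ n ih =>
    have := ih.T.T.S
    rw [move_right, move_right] at this
    exact this

lemma itin_eq (hcd : Function.Injective cd) {u u' : X × ℕ × Fin 3}
    (h : Itin g hinv cd u u') : u = u' := by
  obtain ⟨x, n, i⟩ := u
  obtain ⟨x', n', i'⟩ := u'
  have hi := h.idx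
  simp only at hi
  subst hi
  have key : ∀ x x' n n', Itin g hinv cd (x, n, 0) (x', n', 0) → x = x' ∧ n = n' := by
    intro x x' n n' h
    obtain ⟨h1, h2⟩ := itin_base x x' n n' h
    refine ⟨?_, h1⟩
    apply hcd
    funext k
    have h3 := (itin_right x x' h2 k).T.psi_eq
    rw [T1fun_0, T1fun_0, psi_1, psi_1] at h3
    cases ha : cd x k <;> cases hb : cd x' k <;> simp_all
  have hcase : ∀ i : Fin 3, i = 0 ∨ i = 1 ∨ i = 2 := by decide
  rcases hcase i with rfl | rfl | rfl
  · obtain ⟨h1, h2⟩ := key x x' n n' h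
    rw [h1, h2]
  · have h3 := h.T.T
    rw [T1fun_11, T1fun_11] at h3
    obtain ⟨h1, h2⟩ := key x x' n n' h3
    rw [h1, h2]
  · have h3 := h.T
    rw [T1fun_2, T1fun_2] at h3
    obtain ⟨h1, h2⟩ := key x x' n n' h3
    rw [h1, h2]

variable (g hinv) (cd)

/-- the point of the phase space attached to a point -/
def pt (x : X) : Z := fun ω => psi cd (sig g hinv ω.1⁻¹ (x, 0, 0))

lemma pt_orbit_of (hEg : ∀ x y, E x y → ∃ n, g n x = y) (x x' : X) (h : E x x') :
    ∃ h : F2, Phi h (pt g hinv cd x) = pt g hinv cd x' := by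
  obtain ⟨n, hn⟩ := hEg x x' h
  obtain ⟨l, hl⟩ := exists_apply g hinv n
  obtain ⟨w, hw⟩ := π_surjective l
  obtain ⟨s, hs⟩ := shift_mem w
  refine ⟨s, ?_⟩
  rw [hs]
  funext ⟨m, k⟩
  rw [act_apply, θ_inv_apply]
  simp only [pt, Pi.one_apply, Equiv.Perm.one_apply]
  rw [mul_inv_rev, inv_inv, hw, map_mul, Equiv.Perm.mul_apply, hl, hn]

include hE hgE in
lemma E_of_pt_orbit (hcd : Function.Injective cd) (x x' : X)
    (h : ∃ h : F2, Phi h (pt g hinv cd x) = pt g hinv cd x') : E x x' := by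
  obtain ⟨s, hs⟩ := h
  obtain ⟨q, hq, hsq⟩ := Phi_form s
  rw [hsq] at hs
  have key : Itin g hinv cd (sig g hinv (π s) (x, 0, 0)) (x', 0, 0) := by
    intro l
    have hfin : {n : ℤ | q (l⁻¹, n) ≠ 1}.Finite :=
      hq.preimage (f := fun n : ℤ => ((l⁻¹, n) : Om)) (fun a _ b _ hab => congrArg Prod.snd hab)
    obtain ⟨n, hn⟩ := hfin.infinite_compl.nonempty
    have hn' : q (l⁻¹, n) = 1 := by
      by_contra h
      exact hn h
    have h1 := congrFun hs (l⁻¹, n)
    rw [act_apply, hn', Equiv.Perm.one_apply, θ_inv_apply] at h1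
    simp only [pt] at h1
    rw [mul_inv_rev, inv_inv, inv_inv, map_mul, Equiv.Perm.mul_apply] at h1
    exact h1
  have h2 := itin_eq hcd key
  have h3 := sig_E g hinv E hE hgE s (x, 0, 0)
  rw [h2] at h3
  exact h3

end

section
variable {X : Type*} [MeasurableSpace X] (g : ℕ → X → X) (hinv : ∀ n x, g n (g n x) = x)
  (hg : ∀ n, Measurable (g n)) (cd : X → ℕ → Bool) (hcd : Measurable cd)

include hg in
lemma S1fun_measurable : Measurable (S1fun g) := by
  apply measurable_from_prod_countable_left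
  rintro ⟨n, i⟩
  fin_cases i
  · cases n with
    | zero => exact measurable_id.prodMk measurable_const
    | succ n => exact measurable_id.prodMk measurable_const
  · show Measurable fun x => S1fun g (x, n, 1)
    simp only [S1fun_1]
    exact (hg n).prodMk measurable_const
  · show Measurable fun x => S1fun g (x, n, 2)
    simp only [S1fun_2]
    exact measurable_id.prodMk measurable_const

lemma T1fun_measurable : Measurable (T1fun : X × ℕ × Fin 3 → X × ℕ × Fin 3) := by
  apply measurable_from_prod_countable_left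
  rintro ⟨n, i⟩
  show Measurable fun x : X => (x, (n, i + 1))
  exact measurable_id.prodMk measurable_const

include hg in
lemma sig_measurable (w : F2) : Measurable (sig g hinv (π w)) := by
  induction w using FreeGroup.induction_on with
  | C1 =>
    rw [map_one, map_one]
    exact measurable_id
  | of i =>
    fin_cases i
    · have : ⇑(sig g hinv (π (FreeGroup.of 0))) = S1fun g := funext fun u => sig_a g hinv u
      show Measurable ⇑(sig g hinv (π (FreeGroup.of 0)))
      rw [this]; exact S1fun_measurable g hg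
    · have : ⇑(sig g hinv (π (FreeGroup.of 1))) = T1fun := funext fun u => sig_b g hinv u
      show Measurable ⇑(sig g hinv (π (FreeGroup.of 1)))
      rw [this]; exact T1fun_measurable
  | inv_of i ih =>
    fin_cases i
    · have : ⇑(sig g hinv (π (FreeGroup.of 0)⁻¹)) = S1fun g := by
        funext u
        rw [map_inv, map_inv, Equiv.Perm.inv_eq_iff_eq, sig_a, S1fun_invol g hinv]
      show Measurable ⇑(sig g hinv (π (FreeGroup.of 0)⁻¹))
      rw [this]; exact S1fun_measurable g hg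
    · have : ⇑(sig g hinv (π (FreeGroup.of 1)⁻¹)) = T1fun ∘ T1fun := by
        funext u
        rw [map_inv, map_inv, Equiv.Perm.inv_eq_iff_eq, sig_b]
        exact (T1fun_cube u).symm
      show Measurable ⇑(sig g hinv (π (FreeGroup.of 1)⁻¹))
      rw [this]; exact T1fun_measurable.comp T1fun_measurable
  | mul x y ihx ihy =>
    have : ⇑(sig g hinv (π (x * y))) = ⇑(sig g hinv (π x)) ∘ ⇑(sig g hinv (π y)) := by
      rw [map_mul, map_mul]; rfl
    rw [this]
    exact ihx.comp ihy

include hcd in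
lemma psi_measurable : Measurable (psi cd) := by
  apply measurable_from_prod_countable_left
  rintro ⟨n, i⟩
  fin_cases i
  · exact measurable_const
  · show Measurable fun x => psi cd (x, n, 1)
    simp only [psi_1]
    have h1 : Measurable (fun x => cd x n) := (measurable_pi_apply n).comp hcd
    have h2 : Measurable (fun b : Bool => (if b then 1 else 0 : Fin 5)) := measurable_from_top
    exact h2.comp h1
  · exact measurable_const

include hg hcd in
lemma pt_measurable (ω : Om) : Measurable (fun x => pt g hinv cd x ω) := by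
  obtain ⟨w, hw⟩ := π_surjective ω.1⁻¹
  unfold pt
  rw [← hw]
  exact (psi_measurable cd hcd).comp ((sig_measurable g hinv hg w).comp
    (measurable_id.prodMk measurable_const))

include hg hcd in
lemma code_pt_measurable : Measurable (fun x => code (pt g hinv cd x)) := by
  apply measurable_pi_lambda
  intro h
  obtain ⟨q, _, hq⟩ := Phi_form h⁻¹
  unfold code
  rw [hq]
  have h1 : Measurable (fun x => pt g hinv cd x ((θ h⁻¹)⁻¹ om0)) := pt_measurable g hinv hg cd hcd _
  have h2 : Measurable (fun y : Fin 5 => decide (q om0 y = 0)) := measurable_from_top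
  exact h2.comp h1

end

end Pool.Agent.Lib.MP_27a2ed_lc
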