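import Mathlib

set_option autoImplicit false

namespace Pool.Agent.Lib.MP_27a2ed_lc

open Set Topology

/-! ### Wreath-type permutations of a product space -/

section act
variable {Ω Y : Type*}

/-- The permutation of `Ω → Y` given by a permutation of coordinates followed by permutations
of the symbols, coordinate by coordinate. -/
def act (q : Ω → Equiv.Perm Y) (R : Equiv.Perm Ω) : Equiv.Perm (Ω → Y) where
  toFun z := fun ω => q ω (z (R⁻¹ ω))
  invFun z := fun ω => (q (R ω))⁻¹ (z (R ω))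
  left_inv z := by
    funext ω
    simp
  right_inv z := by
    funext ω
    simp

lemma act_apply (q : Ω → Equiv.Perm Y) (R : Equiv.Perm Ω) (z : Ω → Y) (ω : Ω) :
    act q R z ω = q ω (z (R⁻¹ ω)) := rfl

lemma act_mul (q q' : Ω → Equiv.Perm Y) (R R' : Equiv.Perm Ω) :
    act q R * act q' R' = act (fun ω => q ω * q' (R⁻¹ ω)) (R * R') := by
  ext z ω
  simp [act_apply, Equiv.Perm.mul_apply, mul_inv_rev]

lemma act_one : act (1 : Ω → Equiv.Perm Y) (1 : Equiv.Perm Ω) = 1 := by
  ext z ω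
  simp [act_apply]

lemma act_inv (q : Ω → Equiv.Perm Y) (R : Equiv.Perm Ω) :
    (act q R)⁻¹ = act (fun ω => (q (R ω))⁻¹) R⁻¹ := by
  rw [inv_eq_iff_mul_eq_one, act_mul]
  have : (fun ω => q ω * (fun ω => (q (R ω))⁻¹) (R⁻¹ ω)) = 1 := by
    funext ω
    simp
  rw [this, mul_inv_cancel, act_one]

lemma act_pow_of_invariant (q : Ω → Equiv.Perm Y) (R : Equiv.Perm Ω)
    (h : ∀ ω, q (R⁻¹ ω) = q ω) (n : ℕ) : (act q R) ^ n = act (fun ω => q ω ^ n) (R ^ n) := by
  induction n with
  | zero =>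
    simp only [pow_zero]
    exact act_one.symm
  | succ n ih =>
    rw [pow_succ', ih, act_mul, ← pow_succ' R]
    congr 1
    funext ω
    rw [h, ← pow_succ']

lemma act_one_left_mul (R R' : Equiv.Perm Ω) :
    act (1 : Ω → Equiv.Perm Y) (R * R') = act 1 R * act 1 R' := by
  rw [act_mul]
  congr 1

end act

/-! ### The index set -/

/-- relators of the free product of cyclic groups of orders two and three -/
def rels : Set (FreeGroup (Fin 2)) := {FreeGroup.of 0 ^ 2, FreeGroup.of 1 ^ 3}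

/-- the free product of cyclic groups of orders two and three -/
abbrev Lam : Type := PresentedGroup rels

/-- The free group of rank two. -/
abbrev F2 : Type := FreeGroup (Fin 2)

/-- the quotient map -/
def π : F2 →* Lam := PresentedGroup.mk rels

lemma π_a_sq : π (FreeGroup.of 0) ^ 2 = 1 := by
  rw [← map_pow]
  exact PresentedGroup.one_of_mem (by simp [rels])

lemma π_b_cube : π (FreeGroup.of 1) ^ 3 = 1 := by
  rw [← map_pow]
  exact PresentedGroup.one_of_mem (by simp [rels])

lemma π_surjective : Function.Surjective π := PresentedGroup.mk_surjective rels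

/-- two involutions of the integers generating the infinite dihedral group -/
def neg : Equiv.Perm ℤ := Equiv.neg ℤ

/-- the reflection `n ↦ 1 - n` -/
def refl1 : Equiv.Perm ℤ := Equiv.subLeft 1

/-- action of the free group on the integers -/
def r : F2 →* Equiv.Perm ℤ := FreeGroup.lift ![neg, refl1]

lemma r_a (n : ℤ) : r (FreeGroup.of 0) n = -n := by
  simp [r, neg]

lemma r_b (n : ℤ) : r (FreeGroup.of 1) n = 1 - n := by
  simp [r, refl1]

/-- the index set -/
abbrev Om : Type := Lam × ℤ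

/-- The action on the index set. -/
def θ : F2 →* Equiv.Perm Om where
  toFun g := (Equiv.mulLeft (π g)).prodCongr (r g)
  map_one' := by ext ω <;> simp
  map_mul' g h := by ext ω <;> simp [mul_assoc]

lemma θ_apply (g : F2) (l : Lam) (n : ℤ) : θ g (l, n) = (π g * l, r g n) := rfl

lemma θ_inv_apply (g : F2) (l : Lam) (n : ℤ) :
    (θ g)⁻¹ (l, n) = ((π g)⁻¹ * l, (r g)⁻¹ n) := by
  rw [← map_inv, θ_apply, map_inv, map_inv]

/-- base point -/
def om0 : Om := (1, 0)

/-- the first generator acting on the index set -/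
abbrev S : Equiv.Perm Om := θ (FreeGroup.of 0)
/-- the second generator acting on the index set -/
abbrev T : Equiv.Perm Om := θ (FreeGroup.of 1)

lemma S_sq : S ^ 2 = 1 := by
  ext ⟨l, n⟩ : 1
  have h := π_a_sq
  rw [pow_two] at h
  rw [pow_two, Equiv.Perm.mul_apply, θ_apply, θ_apply, ← mul_assoc, h, r_a, r_a]
  simp

lemma T_cube_apply (l : Lam) (n : ℤ) : (T ^ 3) (l, n) = (l, 1 - n) := by
  have h := π_b_cube
  rw [pow_succ, pow_two] at h
  rw [pow_succ, pow_two, Equiv.Perm.mul_apply, Equiv.Perm.mul_apply, θ_apply, θ_apply, θ_apply,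
    ← mul_assoc, ← mul_assoc, ← mul_assoc, h, r_b, r_b, r_b]
  simp

lemma T_six : T ^ 6 = 1 := by
  ext ⟨l, n⟩ : 1
  rw [show (6 : ℕ) = 3 + 3 from rfl, pow_add, Equiv.Perm.mul_apply, T_cube_apply, T_cube_apply]
  simp

lemma T_pow_apply (j : ℕ) : ∃ n : ℤ, (T ^ j) om0 = (π (FreeGroup.of 1) ^ j, n) := by
  refine ⟨(r (FreeGroup.of 1) ^ j) 0, ?_⟩
  have : T ^ j = θ (FreeGroup.of 1 ^ j) := by rw [map_pow]
  rw [this, om0, θ_apply, map_pow, map_pow]
  simp

/-- a homomorphism to `Perm (Fin 2)` separating the first generator from the powers of the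
second -/
def sgn : Lam →* Equiv.Perm (Fin 2) :=
  PresentedGroup.toGroup (f := ![Equiv.swap 0 1, 1]) (by
    intro r hr
    rcases hr with rfl | rfl
    · simp only [map_pow, FreeGroup.lift_apply_of]
      decide
    · simp)

lemma sgn_a : sgn (π (FreeGroup.of 0)) = Equiv.swap 0 1 := by
  show sgn (PresentedGroup.of 0) = _
  rw [sgn, PresentedGroup.toGroup.of]
  rfl

lemma sgn_b : sgn (π (FreeGroup.of 1)) = 1 := by
  show sgn (PresentedGroup.of 1) = _
  rw [sgn, PresentedGroup.toGroup.of]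
  rfl

lemma π_a_ne (j : ℕ) : π (FreeGroup.of 0) ≠ π (FreeGroup.of 1) ^ j := by
  intro h
  have h1 := congrArg sgn h
  rw [map_pow, sgn_a, sgn_b, one_pow] at h1
  exact absurd h1 (by decide)

/-- orbit of the base point under `S` -/
def OS : Set Om := {om0, S om0}
/-- orbit of the base point under `T` -/
def OT : Set Om := {ω | ∃ j < 6, ω = (T ^ j) om0}

lemma OS_inter_OT {ω : Om} (h1 : ω ∈ OS) (h2 : ω ∈ OT) : ω = om0 := by
  rcases h1 with rfl | rfl
  · rfl
  · obtain ⟨j, _, hj⟩ := h2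
    obtain ⟨n, hn⟩ := T_pow_apply j
    rw [hn, om0, θ_apply, mul_one] at hj
    exact absurd (congrArg Prod.fst hj) (π_a_ne j)

lemma S_inv_mem_OS {ω : Om} : S⁻¹ ω ∈ OS ↔ ω ∈ OS := by
  have hS : S⁻¹ = S := by
    rw [inv_eq_iff_mul_eq_one, ← pow_two]; exact S_sq
  have key : ∀ ω, ω ∈ OS → S ω ∈ OS := by
    intro ω h
    rcases h with rfl | rfl
    · right; rfl
    · left
      show (S * S) om0 = om0
      rw [← pow_two, S_sq]; rfl
  constructor
  · intro h
    have := key _ h
    rw [hS] at this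
    have h2 : S (S ω) = ω := by
      show (S * S) ω = ω
      rw [← pow_two, S_sq]; rfl
    rwa [h2] at this
  · intro h
    rw [hS]
    exact key _ h

lemma T_mem_OT {ω : Om} (h : ω ∈ OT) : T ω ∈ OT := by
  obtain ⟨j, hj, rfl⟩ := h
  by_cases h5 : j = 5
  · subst h5
    refine ⟨0, by norm_num, ?_⟩
    show (T * T ^ 5) om0 = _
    rw [← pow_succ', T_six, pow_zero]
  · refine ⟨j + 1, by omega, ?_⟩
    show (T * T ^ j) om0 = _
    rw [← pow_succ']

lemma T_inv_mem_OT {ω : Om} : T⁻¹ ω ∈ OT ↔ ω ∈ OT := by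
  constructor
  · intro h
    have := T_mem_OT h
    simpa using this
  · intro h
    have hT : T⁻¹ = T ^ 5 := by
      rw [inv_eq_iff_mul_eq_one, ← pow_succ']; exact T_six
    rw [hT]
    have : ∀ n : ℕ, (T ^ n) ω ∈ OT := by
      intro n
      induction n with
      | zero => exact h
      | succ n ih =>
        rw [pow_succ', Equiv.Perm.mul_apply]
        exact T_mem_OT ih
    exact this 5

lemma om0_mem_OS : om0 ∈ OS := Or.inl rfl
lemma om0_mem_OT : om0 ∈ OT := ⟨0, by norm_num, rfl⟩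

lemma OS_finite : OS.Finite := by
  unfold OS
  exact (Set.finite_singleton _).insert _

lemma OT_finite : OT.Finite := by
  have : OT ⊆ (fun j : ℕ => (T ^ j) om0) '' (Set.Iio 6) := by
    rintro ω ⟨j, hj, rfl⟩
    exact ⟨j, hj, rfl⟩
  exact ((Set.finite_Iio 6).image _).subset this

/-! ### Transitivity -/

lemma exists_lift (g : F2) (n : ℤ) : ∃ g' : F2, π g' = π g ∧ r g' 0 = n := by
  -- the element acting as translation by two
  set a : F2 := FreeGroup.of 0
  set b : F2 := FreeGroup.of 1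
  have hb3 : π (b ^ 3) = 1 := by rw [map_pow]; exact π_b_cube
  have hrb3 : ∀ m, r (b ^ 3) m = 1 - m := by
    intro m
    rw [pow_succ, pow_two, map_mul, map_mul, Equiv.Perm.mul_apply, Equiv.Perm.mul_apply,
      r_b, r_b, r_b]
    ring
  set c : F2 := b ^ 3 * (a * b ^ 3 * a⁻¹)
  have hc : π c = 1 := by
    simp only [c, map_mul, hb3, map_inv]
    simp
  have hrai : ∀ m, r a⁻¹ m = -m := by
    intro m
    rw [map_inv, Equiv.Perm.inv_eq_iff_eq, r_a]
    ring
  have hrc : ∀ m, r c m = m + 2 := by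
    intro m
    simp only [c, map_mul, Equiv.Perm.mul_apply]
    rw [hrai, hrb3, r_a, hrb3]
    ring
  have hrcp : ∀ (k : ℕ) m, r (c ^ k) m = m + 2 * k := by
    intro k
    induction k with
    | zero => intro m; simp
    | succ k ih =>
      intro m
      rw [pow_succ', map_mul, Equiv.Perm.mul_apply, ih, hrc]
      push_cast; ring
  have hrcz : ∀ (k : ℤ) m, r (c ^ k) m = m + 2 * k := by
    intro k m
    rcases Int.eq_nat_or_neg k with ⟨j, rfl | rfl⟩
    · rw [zpow_natCast]; exact hrcp j m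
    · rw [zpow_neg, zpow_natCast, map_inv, Equiv.Perm.inv_eq_iff_eq, hrcp]
      ring
  rcases Int.even_or_odd (n - r g 0) with ⟨k, hk⟩ | ⟨k, hk⟩
  · refine ⟨c ^ k * g, ?_, ?_⟩
    · rw [map_mul, map_zpow, hc, one_zpow, one_mul]
    · rw [map_mul, Equiv.Perm.mul_apply, hrcz]
      linarith
  · refine ⟨c ^ (k + r g 0) * b ^ 3 * g, ?_, ?_⟩
    · rw [map_mul, map_mul, map_zpow, hc, one_zpow, one_mul, hb3, one_mul]
    · rw [map_mul, map_mul, Equiv.Perm.mul_apply, Equiv.Perm.mul_apply, hrb3, hrcz]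
      linarith

lemma transitive (ω : Om) : ∃ g : F2, θ g om0 = ω := by
  obtain ⟨l, n⟩ := ω
  obtain ⟨g, hg⟩ := π_surjective l
  obtain ⟨g', h1, h2⟩ := exists_lift g n
  refine ⟨g', ?_⟩
  rw [om0, θ_apply, h1, hg, h2, mul_one]

end Pool.Agent.Lib.MP_27a2ed_lc
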