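import Pool.Agent.Lib.MP_27a2ed_lc.LN

set_option autoImplicit false

namespace Pool.Agent.Lib.MP_27a2ed_lc

open MeasureTheory Set Topology

/-- A Borel partial injection with disjoint domain and range extends to a Borel involution. -/
lemma exists_involution {X : Type*} [MeasurableSpace X] [StandardBorelSpace X]
    (H : Set (X × X)) (hH : MeasurableSet H) (h1 : IsGr H)
    (h2 : ∀ x x' y, (x, y) ∈ H → (x', y) ∈ H → x = x') (C : Set X)
    (hC : ∀ p ∈ H, p.1 ∈ C ∧ p.2 ∉ C) :
    ∃ g : X → X, Measurable g ∧ (∀ x, g (g x) = x) ∧ (∀ x y, (x, y) ∈ H → g x = y) ∧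
      ∀ x, g x = x ∨ (x, g x) ∈ H ∨ (g x, x) ∈ H := by
  classical
  let g : X → X := fun x => if h : ∃ y, (x, y) ∈ H then h.choose else
    if h' : ∃ y, (y, x) ∈ H then h'.choose else x
  have g1 : ∀ x y, (x, y) ∈ H → g x = y := by
    intro x y hxy
    have h : ∃ y, (x, y) ∈ H := ⟨y, hxy⟩
    show (if h : ∃ y, (x, y) ∈ H then h.choose else
      if h' : ∃ y, (y, x) ∈ H then h'.choose else x) = y
    rw [dif_pos h]
    exact h1 x _ _ h.choose_spec hxy
  have g2 : ∀ x y, (y, x) ∈ H → g x = y := by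
    intro x y hxy
    have h : ¬ ∃ y, (x, y) ∈ H := by
      rintro ⟨y', hy'⟩
      exact (hC _ hxy).2 (hC _ hy').1
    have h' : ∃ y, (y, x) ∈ H := ⟨y, hxy⟩
    show (if h : ∃ y, (x, y) ∈ H then h.choose else
      if h' : ∃ y, (y, x) ∈ H then h'.choose else x) = y
    rw [dif_neg h, dif_pos h']
    exact h2 _ _ x h'.choose_spec hxy
  have g3 : ∀ x, (¬ ∃ y, (x, y) ∈ H) → (¬ ∃ y, (y, x) ∈ H) → g x = x := by
    intro x h h'
    show (if h : ∃ y, (x, y) ∈ H then h.choose else
      if h' : ∃ y, (y, x) ∈ H then h'.choose else x) = x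
    rw [dif_neg h, dif_neg h']
  refine ⟨g, ?_, ?_, g1, ?_⟩
  · intro B hB
    have hpre : g ⁻¹' B = (Prod.fst '' (H ∩ Prod.snd ⁻¹' B)) ∪ (Prod.snd '' (H ∩ Prod.fst ⁻¹' B)) ∪
        (B ∩ ((Prod.fst '' H)ᶜ ∩ (Prod.snd '' H)ᶜ)) := by
      ext x
      constructor
      · intro hx
        by_cases h : ∃ y, (x, y) ∈ H
        · obtain ⟨y, hy⟩ := h
          have hx' : g x ∈ B := hx
          rw [g1 x y hy] at hx'
          exact Or.inl (Or.inl ⟨(x, y), ⟨hy, hx'⟩, rfl⟩)
        · by_cases h' : ∃ y, (y, x) ∈ H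
          · obtain ⟨y, hy⟩ := h'
            have hx' : g x ∈ B := hx
            rw [g2 x y hy] at hx'
            exact Or.inl (Or.inr ⟨(y, x), ⟨hy, hx'⟩, rfl⟩)
          · have hx' : g x ∈ B := hx
            rw [g3 x h h'] at hx'
            refine Or.inr ⟨hx', ?_, ?_⟩
            · rintro ⟨⟨a, b⟩, hab, rfl⟩
              exact h ⟨b, hab⟩
            · rintro ⟨⟨a, b⟩, hab, rfl⟩
              exact h' ⟨a, hab⟩
      · rintro ((⟨⟨a, b⟩, ⟨hab, hb⟩, rfl⟩ | ⟨⟨a, b⟩, ⟨hab, hb⟩, rfl⟩) | ⟨hx, hx1, hx2⟩)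
        · show g a ∈ B
          rw [g1 a b hab]; exact hb
        · show g b ∈ B
          rw [g2 b a hab]; exact hb
        · show g x ∈ B
          rw [g3 x]
          · exact hx
          · rintro ⟨y, hy⟩; exact hx1 ⟨(x, y), hy, rfl⟩
          · rintro ⟨y, hy⟩; exact hx2 ⟨(y, x), hy, rfl⟩
    have inj1 : InjOn (Prod.fst : X × X → X) H := by
      rintro ⟨a, b⟩ hab ⟨a', b'⟩ hab' h
      simp only at h
      subst h
      rw [h1 _ _ _ hab hab']
    have inj2 : InjOn (Prod.snd : X × X → X) H := by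
      rintro ⟨a, b⟩ hab ⟨a', b'⟩ hab' h
      simp only at h
      subst h
      rw [h2 _ _ _ hab hab']
    rw [hpre]
    apply MeasurableSet.union
    · apply MeasurableSet.union
      · exact (hH.inter (measurable_snd hB)).image_of_measurable_injOn measurable_fst
          (inj1.mono inter_subset_left)
      · exact (hH.inter (measurable_fst hB)).image_of_measurable_injOn measurable_snd
          (inj2.mono inter_subset_left)
    · exact hB.inter ((hH.image_of_measurable_injOn measurable_fst inj1).compl.inter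
        (hH.image_of_measurable_injOn measurable_snd inj2).compl)
  · intro x
    by_cases h : ∃ y, (x, y) ∈ H
    · obtain ⟨y, hy⟩ := h
      rw [g1 x y hy, g2 y x hy]
    · by_cases h' : ∃ y, (y, x) ∈ H
      · obtain ⟨y, hy⟩ := h'
        rw [g2 x y hy, g1 y x hy]
      · rw [g3 x h h', g3 x h h']
  · intro x
    by_cases h : ∃ y, (x, y) ∈ H
    · obtain ⟨y, hy⟩ := h
      right; left
      rw [g1 x y hy]; exact hy
    · by_cases h' : ∃ y, (y, x) ∈ H
      · obtain ⟨y, hy⟩ := h'
        right; right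
        rw [g2 x y hy]; exact hy
      · left; exact g3 x h h'

/-- **Feldman-Moore**: a countable Borel equivalence relation is generated, in one step, by a
sequence of Borel involutions. -/
theorem feldman_moore {X : Type*} [MeasurableSpace X] [StandardBorelSpace X]
    (E : X → X → Prop) (hE : Equivalence E) (hm : MeasurableSet {p : X × X | E p.1 p.2})
    (hc : ∀ x, {y | E x y}.Countable) :
    ∃ g : ℕ → X → X, (∀ n, Measurable (g n)) ∧ (∀ n x, g n (g n x) = x) ∧
      ∀ x y, E x y ↔ ∃ n, g n x = y := by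
  classical
  let := upgradeStandardBorel X
  set P : Set (X × X) := {p : X × X | E p.1 p.2} with hP
  obtain ⟨G, hG, hPG⟩ := lusin_novikov P hm.analyticSet hc
  let b := TopologicalSpace.countableBasis X
  have hbc : b.Countable := TopologicalSpace.countable_countableBasis X
  have : Countable b := hbc.to_subtype
  have hb := TopologicalSpace.isBasis_countableBasis X
  let H : ℕ → ℕ → b → Set (X × X) := fun n m U =>
    (P ∩ G n ∩ Prod.swap ⁻¹' (G m)) ∩ (Prod.fst ⁻¹' (U : Set X) ∩ Prod.snd ⁻¹' (U : Set X)ᶜ)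
  have hHm : ∀ n m U, MeasurableSet (H n m U) := by
    intro n m U
    have hU : MeasurableSet (U : Set X) := (hb.isOpen U.2).measurableSet
    exact ((hm.inter (hG n).1).inter (measurable_swap (hG m).1)).inter
      ((measurable_fst hU).inter (measurable_snd hU.compl))
  have hinv : ∀ n m U, ∃ g : X → X, Measurable g ∧ (∀ x, g (g x) = x) ∧
      (∀ x y, (x, y) ∈ H n m U → g x = y) ∧
      ∀ x, g x = x ∨ (x, g x) ∈ H n m U ∨ (g x, x) ∈ H n m U := by
    intro n m U
    apply exists_involution (H n m U) (hHm n m U) _ _ (U : Set X)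
    · rintro p ⟨_, h1, h2⟩
      exact ⟨h1, h2⟩
    · intro x y y' h h'
      exact (hG n).2 x y y' h.1.1.2 h'.1.1.2
    · intro x x' y h h'
      exact (hG m).2 y x x' h.1.2 h'.1.2
  choose g g1 g2 g3 g4 using hinv
  obtain ⟨e, he⟩ := exists_surjective_nat (Option (ℕ × ℕ × b))
  let F : Option (ℕ × ℕ × b) → X → X := fun o => match o with
    | none => id
    | some q => g q.1 q.2.1 q.2.2
  have F1 : ∀ o, Measurable (F o) := by
    intro o
    rcases o with _ | q
    · exact measurable_id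
    · exact g1 q.1 q.2.1 q.2.2
  have F2 : ∀ o x, F o (F o x) = x := by
    intro o x
    rcases o with _ | q
    · rfl
    · exact g2 q.1 q.2.1 q.2.2 x
  have F3 : ∀ o x, E x (F o x) := by
    intro o x
    rcases o with _ | q
    · exact hE.refl x
    · show E x (g q.1 q.2.1 q.2.2 x)
      rcases g4 q.1 q.2.1 q.2.2 x with h1 | h1 | h1
      · rw [h1]; exact hE.refl x
      · exact h1.1.1.1
      · exact hE.symm h1.1.1.1
  have F4 : ∀ x y, E x y → ∃ o, F o x = y := by
    intro x y hxy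
    by_cases hne : x = y
    · exact ⟨none, hne⟩
    · obtain ⟨n, hn⟩ := mem_iUnion.1 (hPG (show (x, y) ∈ P from hxy))
      obtain ⟨m, hm'⟩ := mem_iUnion.1 (hPG (show (y, x) ∈ P from hE.symm hxy))
      obtain ⟨U, hU, hxU, hUy⟩ := hb.mem_nhds_iff.1
        ((isOpen_compl_singleton (x := y)).mem_nhds hne)
      refine ⟨some (n, m, ⟨U, hU⟩), ?_⟩
      apply g3
      exact ⟨⟨⟨hxy, hn⟩, hm'⟩, hxU, fun h => hUy h rfl⟩
  refine ⟨fun i => F (e i), fun i => F1 _, fun i x => F2 _ x, ?_⟩
  intro x y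
  constructor
  · intro hxy
    obtain ⟨o, ho⟩ := F4 x y hxy
    obtain ⟨i, rfl⟩ := he o
    exact ⟨i, ho⟩
  · rintro ⟨i, rfl⟩
    exact F3 _ x

end Pool.Agent.Lib.MP_27a2ed_lc
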