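import Pool.Agent.Lib.MP_27a2ed_lc.Dyn

set_option autoImplicit false

namespace Pool.Agent.Lib.MP_27a2ed_lc

open Set Topology

/-- three-cycle on five points -/
def al0 : Equiv.Perm (Fin 5) := Equiv.swap 0 1 * Equiv.swap 1 3
/-- five-cycle on five points -/
def be0 : Equiv.Perm (Fin 5) := finRotate 5
/-- the commutator -/
def ka : Equiv.Perm (Fin 5) := al0 * be0 * al0⁻¹ * be0⁻¹

lemma al0_cube : al0 ^ 3 = 1 := by decide
lemma be0_five : be0 ^ 5 = 1 := by decide
lemma ka_transitive : ∀ y y' : Fin 5, ∃ k : Fin 5, (ka ^ (k : ℕ)) y = y' := by decide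

open Classical in
/-- lamp function of the first generator -/
noncomputable def al (ω : Om) : Equiv.Perm (Fin 5) := if ω ∈ OS then al0 else 1
open Classical in
/-- lamp function of the second generator -/
noncomputable def be (ω : Om) : Equiv.Perm (Fin 5) := if ω ∈ OT then be0 else 1

open Classical in
/-- a lamp at a single site -/
noncomputable def lampAt (ω₀ : Om) (p : Equiv.Perm (Fin 5)) (ω : Om) : Equiv.Perm (Fin 5) :=
  if ω = ω₀ then p else 1

lemma lampAt_self (ω₀ : Om) (p : Equiv.Perm (Fin 5)) : lampAt ω₀ p ω₀ = p := if_pos rfl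

lemma lampAt_ne {ω₀ ω : Om} (h : ω ≠ ω₀) (p : Equiv.Perm (Fin 5)) : lampAt ω₀ p ω = 1 :=
  if_neg h

lemma lampAt_pow (ω₀ ω : Om) (p : Equiv.Perm (Fin 5)) (n : ℕ) :
    lampAt ω₀ p ω ^ n = lampAt ω₀ (p ^ n) ω := by
  unfold lampAt
  split_ifs <;> simp

/-- the phase space -/
abbrev Z : Type := Om → Fin 5

/-- first generator acting on the phase space -/
noncomputable def gA : Equiv.Perm Z := act al S
/-- second generator acting on the phase space -/
noncomputable def gB : Equiv.Perm Z := act be T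

/-- the action of the free group on the phase space -/
noncomputable def Phi : F2 →* Equiv.Perm Z := FreeGroup.lift ![gA, gB]

lemma Phi_a : Phi (FreeGroup.of 0) = gA := by simp [Phi]
lemma Phi_b : Phi (FreeGroup.of 1) = gB := by simp [Phi]

lemma al_S (ω : Om) : al (S⁻¹ ω) = al ω := by
  unfold al
  by_cases h : ω ∈ OS
  · rw [if_pos h, if_pos (S_inv_mem_OS.2 h)]
  · rw [if_neg h, if_neg (fun h' => h (S_inv_mem_OS.1 h'))]

lemma be_T (ω : Om) : be (T⁻¹ ω) = be ω := by
  unfold be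
  by_cases h : ω ∈ OT
  · rw [if_pos h, if_pos (T_inv_mem_OT.2 h)]
  · rw [if_neg h, if_neg (fun h' => h (T_inv_mem_OT.1 h'))]

lemma al_cube (ω : Om) : al ω ^ 3 = 1 := by
  unfold al
  split_ifs
  · exact al0_cube
  · simp

lemma be_five (ω : Om) : be ω ^ 5 = 1 := by
  unfold be
  split_ifs
  · exact be0_five
  · simp

lemma gA_cube : gA ^ 3 = act 1 S := by
  rw [gA, act_pow_of_invariant _ _ al_S]
  have h1 : (fun ω => al ω ^ 3) = 1 := by funext ω; exact al_cube ω
  have h2 : S ^ 3 = S := by rw [pow_succ, S_sq, one_mul]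
  rw [h1, h2]

lemma gA_four : gA ^ 4 = act al 1 := by
  rw [gA, act_pow_of_invariant _ _ al_S]
  have h1 : (fun ω => al ω ^ 4) = al := by
    funext ω
    rw [show (4 : ℕ) = 3 + 1 from rfl, pow_add, al_cube, one_mul, pow_one]
  have h2 : S ^ 4 = 1 := by
    rw [show (4 : ℕ) = 2 + 2 from rfl, pow_add, S_sq, one_mul]
  rw [h1, h2]

lemma gB_six : gB ^ 6 = act be 1 := by
  rw [gB, act_pow_of_invariant _ _ be_T]
  have h1 : (fun ω => be ω ^ 6) = be := by
    funext ω
    rw [show (6 : ℕ) = 5 + 1 from rfl, pow_add, be_five, one_mul, pow_one]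
  rw [h1, T_six]

lemma gB_25 : gB ^ 25 = act 1 T := by
  rw [gB, act_pow_of_invariant _ _ be_T]
  have h1 : (fun ω => be ω ^ 25) = 1 := by
    funext ω
    rw [show (25 : ℕ) = 5 * 5 from rfl, pow_mul, be_five, one_pow]
    rfl
  have h2 : T ^ 25 = T := by
    rw [show (25 : ℕ) = 6 * 4 + 1 from rfl, pow_add, pow_mul, T_six, one_pow, one_mul, pow_one]
  rw [h1, h2]

/-- the pure shifts are in the image -/
lemma shift_mem (g : F2) : ∃ h : F2, Phi h = act 1 (θ g) := by
  induction g using FreeGroup.induction_on with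
  | C1 =>
    exact ⟨1, by rw [map_one, map_one, act_one]⟩
  | of i =>
    fin_cases i
    · refine ⟨FreeGroup.of 0 ^ 3, ?_⟩
      rw [map_pow, Phi_a, gA_cube]
      rfl
    · refine ⟨FreeGroup.of 1 ^ 25, ?_⟩
      rw [map_pow, Phi_b, gB_25]
      rfl
  | inv_of i ih =>
    obtain ⟨h, hh⟩ := ih
    refine ⟨h⁻¹, ?_⟩
    rw [map_inv, hh, act_inv, map_inv]
    congr 1
  | mul x y ihx ihy =>
    obtain ⟨h, hh⟩ := ihx
    obtain ⟨h', hh'⟩ := ihy
    refine ⟨h * h', ?_⟩
    rw [map_mul, hh, hh', map_mul, act_one_left_mul]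

lemma commutator_al_be (ω : Om) : al ω * be ω * (al ω)⁻¹ * (be ω)⁻¹ =
    lampAt om0 ka ω := by
  by_cases h : ω = om0
  · subst h
    rw [lampAt_self]
    unfold al be
    rw [if_pos om0_mem_OS, if_pos om0_mem_OT]
    rfl
  · rw [lampAt_ne h]
    unfold al be
    by_cases h1 : ω ∈ OS
    · have h2 : ω ∉ OT := fun h2 => h (OS_inter_OT h1 h2)
      rw [if_neg h2]; simp
    · rw [if_neg h1]; simp

/-- single-site lamps are in the image -/
lemma lamp_mem (ω₀ : Om) : ∃ h : F2, Phi h = act (lampAt ω₀ ka) 1 := by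
  obtain ⟨g, hg⟩ := transitive ω₀
  obtain ⟨s, hs⟩ := shift_mem g
  set a : F2 := FreeGroup.of 0
  set b : F2 := FreeGroup.of 1
  refine ⟨s * ((a ^ 4) * (b ^ 6) * (a ^ 4)⁻¹ * (b ^ 6)⁻¹) * s⁻¹, ?_⟩
  have h1 : Phi ((a ^ 4) * (b ^ 6) * (a ^ 4)⁻¹ * (b ^ 6)⁻¹) =
      act (lampAt om0 ka) 1 := by
    rw [map_mul, map_mul, map_mul, map_inv, map_inv, map_pow, map_pow, Phi_a, Phi_b,
      gA_four, gB_six, act_inv, act_inv, act_mul, act_mul, act_mul]
    congr 1
    funext ω
    rw [← commutator_al_be ω]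
    simp
  rw [map_mul, map_mul, h1, map_inv, hs, act_mul, act_inv, act_mul]
  have h6 : θ g * 1 * (θ g)⁻¹ = 1 := by simp
  rw [h6]
  congr 1
  funext ω
  have h3 : ((θ g)⁻¹ ω = om0) ↔ (ω = ω₀) := by
    rw [Equiv.Perm.inv_eq_iff_eq, hg, eq_comm]
  by_cases h4 : ω = ω₀
  · have h5 : (θ g)⁻¹ ω = om0 := h3.2 h4
    simp only [h5, lampAt_self]
    rw [h4, lampAt_self]
    simp
  · have h5 : ¬ (θ g)⁻¹ ω = om0 := fun h => h4 (h3.1 h)
    rw [lampAt_ne h4]
    simp only [lampAt_ne h5, Pi.one_apply, one_mul, inv_one]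

/-- support form of the elements of the image -/
lemma Phi_form (g : F2) : ∃ q : Om → Equiv.Perm (Fin 5), {ω | q ω ≠ 1}.Finite ∧
    Phi g = act q (θ g) := by
  induction g using FreeGroup.induction_on with
  | C1 =>
    exact ⟨1, by simp, by rw [map_one, map_one, act_one]⟩
  | of i =>
    fin_cases i
    · refine ⟨al, ?_, ?_⟩
      · apply OS_finite.subset
        intro ω hω
        by_contra h
        exact hω (by unfold al; rw [if_neg h])
      · exact Phi_a
    · refine ⟨be, ?_, ?_⟩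
      · apply OT_finite.subset
        intro ω hω
        by_contra h
        exact hω (by unfold be; rw [if_neg h])
      · exact Phi_b
  | inv_of i ih =>
    obtain ⟨q, hq, hg⟩ := ih
    refine ⟨fun ω => (q (θ (FreeGroup.of i) ω))⁻¹, ?_, ?_⟩
    · have : {ω | (q (θ (FreeGroup.of i) ω))⁻¹ ≠ 1} =
          (θ (FreeGroup.of i)) ⁻¹' {ω | q ω ≠ 1} := by
        ext ω
        simp
      rw [this]
      exact hq.preimage ((θ (FreeGroup.of i)).injective.injOn)
    · rw [map_inv, hg, act_inv, map_inv]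
  | mul x y ihx ihy =>
    obtain ⟨q, hq, hx⟩ := ihx
    obtain ⟨q', hq', hy⟩ := ihy
    refine ⟨fun ω => q ω * q' ((θ x)⁻¹ ω), ?_, ?_⟩
    · have h1 : ((fun ω => (θ x)⁻¹ ω) ⁻¹' {ω | q' ω ≠ 1}).Finite :=
        hq'.preimage ((θ x)⁻¹.injective.injOn)
      apply (hq.union h1).subset
      intro ω hω
      by_contra h
      rw [mem_union, not_or] at h
      obtain ⟨h2, h3⟩ := h
      have h2' : q ω = 1 := by
        by_contra h; exact h2 h
      have h3' : q' ((θ x)⁻¹ ω) = 1 := by
        by_contra h; exact h3 h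
      apply hω
      simp only [h2', h3', one_mul]
    · rw [map_mul, hx, hy, act_mul, map_mul]

/-- **Minimality**, finite form: every orbit meets every cylinder. -/
lemma exists_agree (z z' : Z) (F : Finset Om) : ∃ g : F2, ∀ ω ∈ F, Phi g z ω = z' ω := by
  classical
  induction F using Finset.induction_on with
  | empty => exact ⟨1, by simp⟩
  | insert ω₀ F hω₀ ih =>
    obtain ⟨g, hg⟩ := ih
    obtain ⟨h, hh⟩ := lamp_mem ω₀
    obtain ⟨k, hk⟩ := ka_transitive (Phi g z ω₀) (z' ω₀)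
    have hpow : ∀ n : ℕ, Phi (h ^ n) = act (lampAt ω₀ (ka ^ n)) 1 := by
      intro n
      rw [map_pow, hh, act_pow_of_invariant _ _ (fun ω => by simp), one_pow]
      congr 1
      funext ω
      exact lampAt_pow _ _ _ _
    refine ⟨h ^ (k : ℕ) * g, ?_⟩
    intro ω hω
    rw [map_mul, Equiv.Perm.mul_apply, hpow, act_apply]
    rcases Finset.mem_insert.1 hω with rfl | hω
    · rw [lampAt_self]
      simpa using hk
    · have hne : ω ≠ ω₀ := fun h => hω₀ (h ▸ hω)
      rw [lampAt_ne hne]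
      simpa using hg ω hω

lemma Phi_continuous (g : F2) : Continuous (Phi g : Z → Z) := by
  obtain ⟨q, _, hq⟩ := Phi_form g
  rw [hq]
  apply continuous_pi
  intro ω
  have : Continuous (fun y : Fin 5 => q ω y) := continuous_of_discreteTopology
  exact this.comp (continuous_apply _)

lemma orbit_dense (z z' : Z) : z' ∈ closure (range fun g : F2 => Phi g z) := by
  rw [mem_closure_iff]
  intro U hU hz'
  obtain ⟨I, u, hu, hIU⟩ := isOpen_pi_iff.1 hU z' hz'
  obtain ⟨g, hg⟩ := exists_agree z z' I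
  refine ⟨Phi g z, hIU ?_, ⟨g, rfl⟩⟩
  intro ω hω
  rw [hg ω hω]
  exact (hu ω hω).2

/-- the coding map into the full shift -/
noncomputable def code (z : Z) : F2 → Bool := fun g => decide (Phi g⁻¹ z om0 = 0)

lemma code_continuous : Continuous code := by
  apply continuous_pi
  intro g
  have h1 : Continuous (fun z : Z => Phi g⁻¹ z om0) :=
    (continuous_apply om0).comp (Phi_continuous g⁻¹)
  have h2 : Continuous (fun y : Fin 5 => decide (y = 0)) := continuous_of_discreteTopology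
  exact h2.comp h1

lemma code_equivariant (g h : F2) (z : Z) : code (Phi g z) h = code z (g⁻¹ * h) := by
  unfold code
  rw [mul_inv_rev, inv_inv, map_mul, Equiv.Perm.mul_apply]

lemma code_injective : Function.Injective code := by
  intro z z' h
  have h1 : ∀ g : F2, (Phi g z om0 = 0 ↔ Phi g z' om0 = 0) := by
    intro g
    have := congrFun h g⁻¹
    unfold code at this
    rw [inv_inv] at this
    exact decide_eq_decide.1 this
  funext ω
  obtain ⟨g, hg⟩ := transitive ω
  obtain ⟨s, hs⟩ := shift_mem g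
  obtain ⟨l, hl⟩ := lamp_mem om0
  obtain ⟨k, hk⟩ := ka_transitive (z ω) 0
  have hpow : ∀ n : ℕ, Phi (l ^ n) = act (lampAt om0 (ka ^ n)) 1 := by
    intro n
    rw [map_pow, hl, act_pow_of_invariant _ _ (fun ω => by simp), one_pow]
    congr 1
    funext ω
    exact lampAt_pow _ _ _ _
  have hval : ∀ w : Z, Phi (l ^ (k : ℕ) * s⁻¹) w om0 = (ka ^ (k : ℕ)) (w ω) := by
    intro w
    rw [map_mul, Equiv.Perm.mul_apply, hpow, act_apply, lampAt_self, map_inv, hs, act_inv]
    simp [act_apply, hg]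
  have h2 := h1 (l ^ (k : ℕ) * s⁻¹)
  rw [hval, hval] at h2
  have h3 := h2.1 hk
  exact (ka ^ (k : ℕ)).injective (hk.trans h3.symm)

end Pool.Agent.Lib.MP_27a2ed_lc
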