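import Pool.Agent.Lib.MP_27a2ed_lc.Split

set_option autoImplicit false
set_option linter.unusedSectionVars false

namespace Pool.Agent.Lib.MP_27a2ed_lc

open MeasureTheory Set Topology Filter

variable {X Y : Type*}
  [TopologicalSpace X] [PolishSpace X] [MeasurableSpace X] [BorelSpace X]
  [TopologicalSpace Y] [PolishSpace Y] [MeasurableSpace Y] [BorelSpace Y]

lemma good_congr {f : (ℕ → ℕ) → X × Y} {V V' : ℕ → List ℕ} {I : Finset ℕ}
    (h : ∀ i ∈ I, V i = V' i) (hV : Good f V I) : Good f V' I := by
  rintro ⟨D, hD1, hD2⟩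
  apply hV
  refine ⟨D, fun i hi => by rw [h i hi]; exact hD1 i hi, ?_⟩
  have : (⋂ i ∈ I, (fun z => (f z).1) '' cyl (V i)) =
      ⋂ i ∈ I, (fun z => (f z).1) '' cyl (V' i) := by
    apply iInter₂_congr
    intro i hi
    rw [h i hi]
  rw [this]
  exact hD2

/-- One step of the construction. -/
lemma good_step {f : (ℕ → ℕ) → X × Y} (hf : Continuous f) (k : ℕ) (V : ℕ → List ℕ)
    (hV : Good f V (Finset.Ico (k + 1) (2 * k + 2))) :
    ∃ V' : ℕ → List ℕ, Good f V' (Finset.Ico (k + 2) (2 * k + 4)) ∧
      (∀ j < 2 * k + 2, V' j = V j) ∧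
      Ext (V (k + 1)) (V' (2 * k + 2)) ∧ Ext (V (k + 1)) (V' (2 * k + 3)) ∧
      Disjoint ((fun z => (f z).2) '' cyl (V' (2 * k + 2)))
        ((fun z => (f z).2) '' cyl (V' (2 * k + 3))) := by
  obtain ⟨t, t', h1, h2, h3, h4⟩ := good_split hf V _ hV (k + 1) (2 * k + 2) (2 * k + 3)
    (by rw [Finset.mem_Ico]; omega) (by rw [Finset.mem_Ico]; omega)
    (by rw [Finset.mem_Ico]; omega) (by omega)
  have e1 : Function.update (Function.update V (2 * k + 2) t) (2 * k + 3) t' (2 * k + 2) = t := by
    rw [Function.update_of_ne (by omega), Function.update_self]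
  have e2 : Function.update (Function.update V (2 * k + 2) t) (2 * k + 3) t' (2 * k + 3) = t' := by
    rw [Function.update_self]
  refine ⟨Function.update (Function.update V (2 * k + 2) t) (2 * k + 3) t', ?_, ?_, ?_, ?_, ?_⟩
  · have : insert (2 * k + 2) (insert (2 * k + 3) ((Finset.Ico (k + 1) (2 * k + 2)).erase (k + 1)))
        = Finset.Ico (k + 2) (2 * k + 4) := by
      ext i
      simp only [Finset.mem_insert, Finset.mem_erase, Finset.mem_Ico]
      omega
    rw [this] at h4
    exact h4
  · intro j hj
    rw [Function.update_of_ne (by omega), Function.update_of_ne (by omega)]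
  · rw [e1]; exact h1
  · rw [e2]; exact h2
  · rw [e1, e2]; exact h3

/-- The full heap-indexed tree of pieces. -/
lemma good_tree {f : (ℕ → ℕ) → X × Y} (hf : Continuous f) (V₀ : ℕ → List ℕ)
    (hV₀ : Good f V₀ (Finset.Ico 1 2)) :
    ∃ V : ℕ → List ℕ, ∀ n, 1 ≤ n → Good f V (Finset.Ico n (2 * n)) ∧
      Ext (V n) (V (2 * n)) ∧ Ext (V n) (V (2 * n + 1)) ∧
      Disjoint ((fun z => (f z).2) '' cyl (V (2 * n)))
        ((fun z => (f z).2) '' cyl (V (2 * n + 1))) := by
  choose! nxt h1 h2 h3 h4 h5 using fun k V => good_step (f := f) hf k V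
  let sq : ∀ k : ℕ, ℕ → List ℕ := fun k => Nat.rec V₀ (fun k V => nxt k V) k
  have sq_zero : sq 0 = V₀ := rfl
  have sq_succ : ∀ k, sq (k + 1) = nxt k (sq k) := fun k => rfl
  have hg : ∀ k, Good f (sq k) (Finset.Ico (k + 1) (2 * k + 2)) := by
    intro k
    induction k with
    | zero => exact hV₀
    | succ k ih => rw [sq_succ]; exact h1 k _ ih
  have hst1 : ∀ k m, k ≤ m → ∀ j < 2 * k + 2, sq m j = sq k j := by
    intro k m hkm
    induction m, hkm using Nat.le_induction with
    | base => intro j _; rfl
    | succ m hm ih =>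
      intro j hj
      rw [sq_succ, h2 m _ (hg m) j (by omega)]
      exact ih j hj
  set V : ℕ → List ℕ := fun j => sq j j with hV
  have hst : ∀ k j, j < 2 * k + 2 → sq k j = V j := by
    intro k j hj
    rcases le_total k j with h | h
    · exact (hst1 k j h j hj).symm
    · exact hst1 j k h j (by omega)
  refine ⟨V, ?_⟩
  intro n hn
  obtain ⟨k, rfl⟩ : ∃ k, n = k + 1 := ⟨n - 1, by omega⟩
  have e1 : sq (k + 1) (2 * k + 2) = V (2 * k + 2) := hst (k + 1) (2 * k + 2) (by omega)
  have e2 : sq (k + 1) (2 * k + 3) = V (2 * k + 3) := hst (k + 1) (2 * k + 3) (by omega)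
  have e3 : sq k (k + 1) = V (k + 1) := hst k (k + 1) (by omega)
  rw [sq_succ] at e1 e2
  refine ⟨?_, ?_, ?_, ?_⟩
  · have : 2 * (k + 1) = 2 * k + 2 := by ring
    rw [this]
    apply good_congr _ (hg k)
    intro i hi
    rw [Finset.mem_Ico] at hi
    exact hst k i (by omega)
  · have := h3 k _ (hg k)
    rw [e1, e3] at this
    exact this
  · have := h4 k _ (hg k)
    rw [e2, e3] at this
    exact this
  · have := h5 k _ (hg k)
    rw [e1, e2] at this
    exact this

/-- node of level `i` along a branch -/
def node (α : ℕ → Bool) : ℕ → ℕ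
  | 0 => 1
  | i + 1 => 2 * node α i + (if α i then 1 else 0)

lemma node_range (α : ℕ → Bool) (i : ℕ) : 2 ^ i ≤ node α i ∧ node α i < 2 * 2 ^ i := by
  induction i with
  | zero => simp [node]
  | succ i ih =>
    rw [node, pow_succ]
    split_ifs <;> omega

lemma node_congr {α β : ℕ → Bool} {i : ℕ} (h : ∀ j < i, α j = β j) : node α i = node β i := by
  induction i with
  | zero => rfl
  | succ i ih =>
    rw [node, node, ih (fun j hj => h j (by omega)), h i (by omega)]

/-- **Lusin-Novikov**, covering form: an analytic subset of a product of Polish spaces with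
countable sections is covered by countably many Borel graphs. -/
theorem lusin_novikov (P : Set (X × Y)) (hP : AnalyticSet P)
    (hc : ∀ x, {y | (x, y) ∈ P}.Countable) : Small P := by
  classical
  rw [AnalyticSet] at hP
  rcases hP with rfl | ⟨f, hf, rfl⟩
  · exact small_empty
  by_contra hns
  -- the starting good family
  have hstart : Good f (fun _ => []) (Finset.Ico 1 2) := by
    rintro ⟨D, hD1, hD2⟩
    apply hns
    have h1 := hD1 1 (by simp)
    have hcyl : cyl [] = univ := by
      ext z; simp [cyl]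
    apply h1.2.mono
    rintro q ⟨z, rfl⟩
    refine ⟨⟨z, by rw [hcyl]; trivial, rfl⟩, ?_⟩
    have h2 : (f z).1 ∈ ⋃ i ∈ Finset.Ico 1 2, D i := by
      apply hD2
      rw [mem_iInter₂]
      intro i _
      exact ⟨z, by rw [hcyl]; trivial, rfl⟩
    simpa using h2
  obtain ⟨V, hV⟩ := good_tree hf _ hstart
  have hnode_pos : ∀ α i, 1 ≤ node α i := fun α i =>
    le_trans Nat.one_le_two_pow (node_range α i).1
  have hext : ∀ α i, Ext (V (node α i)) (V (node α (i + 1))) := by
    intro α i
    obtain ⟨_, h2, h3, _⟩ := hV (node α i) (hnode_pos α i)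
    rw [node]
    split_ifs
    · exact h3
    · exact h2
  have hlen : ∀ α i, i ≤ (V (node α i)).length := by
    intro α i
    induction i with
    | zero => exact Nat.zero_le _
    | succ i ih => have := (hext α i).1; omega
  have hpref : ∀ α i j, i ≤ j → V (node α i) <+: V (node α j) := by
    intro α i j hij
    induction j, hij using Nat.le_induction with
    | base => exact List.prefix_rfl
    | succ j _ ih => exact ih.trans (hext α j).2
  have hlen' : ∀ α j, j < (V (node α (j + 1))).length := fun α j => hlen α (j + 1)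
  -- the branch
  let z : (ℕ → Bool) → (ℕ → ℕ) := fun α j => (V (node α (j + 1)))[j]'(hlen' α j)
  have hz : ∀ α i, z α ∈ cyl (V (node α i)) := by
    intro α i j hj
    show (V (node α (j + 1)))[j]'(hlen' α j) = (V (node α i))[j]
    rcases le_total (j + 1) i with h | h
    · obtain ⟨r, hr⟩ := hpref α _ _ h
      have h2 : (V (node α i))[j]? = (V (node α (j + 1)))[j]? := by
        rw [← hr, List.getElem?_append_left (hlen' α j)]
      rw [List.getElem?_eq_getElem hj, List.getElem?_eq_getElem (hlen' α j)] at h2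
      exact (Option.some.inj h2).symm
    · obtain ⟨r, hr⟩ := hpref α _ _ h
      have h2 : (V (node α (j + 1)))[j]? = (V (node α i))[j]? := by
        rw [← hr, List.getElem?_append_left hj]
      rw [List.getElem?_eq_getElem hj, List.getElem?_eq_getElem (hlen' α j)] at h2
      exact Option.some.inj h2
  -- common points
  have hne : ∀ i : ℕ, ∃ x : X, x ∈ ⋂ n ∈ Finset.Ico (2 ^ i) (2 * 2 ^ i),
      (fun z => (f z).1) '' cyl (V n) := fun i =>
    good_nonempty (hV (2 ^ i) Nat.one_le_two_pow).1
  choose x hx using hne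
  have hw : ∀ α i, ∃ w ∈ cyl (V (node α i)), (f w).1 = x i := by
    intro α i
    have := mem_iInter₂.1 (hx i) (node α i) (by
      rw [Finset.mem_Ico]; exact node_range α i)
    exact this
  choose w hw1 hw2 using hw
  have hlim : ∀ α, Tendsto x atTop (𝓝 (f (z α)).1) := by
    intro α
    have h1 : Tendsto (fun i => w α i) atTop (𝓝 (z α)) := by
      rw [tendsto_pi_nhds]
      intro j
      apply tendsto_const_nhds.congr'
      filter_upwards [eventually_gt_atTop j] with i hi
      have h2 : j < (V (node α i)).length := lt_of_lt_of_le hi (hlen α i)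
      rw [hw1 α i j h2, hz α i j h2]
    have h2 : Tendsto (fun i => (f (w α i)).1) atTop (𝓝 (f (z α)).1) :=
      ((continuous_fst.comp hf).tendsto _).comp h1
    simpa only [hw2] using h2
  set x₀ := (f (z (fun _ => false))).1 with hx₀
  have hxeq : ∀ α, (f (z α)).1 = x₀ := fun α => tendsto_nhds_unique (hlim α) (hlim _)
  -- injectivity
  have hinj : Function.Injective (fun α => (f (z α)).2) := by
    intro α β hαβ
    by_contra hne
    have hex : ∃ i, α i ≠ β i := by
      by_contra h
      push Not at h
      exact hne (funext h)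
    obtain ⟨hi1, hi2⟩ : α (Nat.find hex) ≠ β (Nat.find hex) ∧
        ∀ j < Nat.find hex, α j = β j := by
      refine ⟨Nat.find_spec hex, fun j hj => ?_⟩
      have := Nat.find_min hex hj
      rwa [not_not] at this
    set i := Nat.find hex
    have hn := node_congr hi2
    have hd := (hV (node α i) (hnode_pos α i)).2.2.2
    have h1 := hz α (i + 1)
    have h2 := hz β (i + 1)
    rw [node] at h1 h2
    rw [← hn] at h2
    cases hα : α i <;> cases hβ : β i
    · exact hi1 (by rw [hα, hβ])
    · simp only [hα, hβ, if_true, Bool.false_eq_true, if_false, add_zero] at h1 h2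
      exact Set.disjoint_left.1 hd ⟨z α, h1, rfl⟩ ⟨z β, h2, hαβ.symm⟩
    · simp only [hα, hβ, if_true, Bool.false_eq_true, if_false, add_zero] at h1 h2
      exact Set.disjoint_left.1 hd ⟨z β, h2, rfl⟩ ⟨z α, h1, hαβ⟩
    · exact hi1 (by rw [hα, hβ])
  have hcount : (range (fun α => (f (z α)).2)).Countable := by
    apply (hc x₀).mono
    rintro _ ⟨α, rfl⟩
    show (x₀, (f (z α)).2) ∈ range f
    rw [← hxeq α]
    exact ⟨z α, rfl⟩
  have hcB : Countable (ℕ → Bool) := by
    have h1 : Countable (range (fun α : ℕ → Bool => (f (z α)).2)) := hcount.to_subtype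
    exact (Function.Injective.countable (f := rangeFactorization (fun α => (f (z α)).2))
      (fun a b h => hinj (congrArg Subtype.val h)))
  obtain ⟨g, hg⟩ := exists_surjective_nat (ℕ → Bool)
  obtain ⟨n, hn⟩ := hg (fun n => !(g n n))
  have := congrFun hn n
  cases h : g n n <;> simp [h] at this

end Pool.Agent.Lib.MP_27a2ed_lc
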