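import Mathlib

set_option autoImplicit false

namespace Pool.Agent.Lib.MP_27a2ed_lc

open MeasureTheory Set Topology

variable {X Y : Type*}

/-- A set in a product all of whose vertical sections have at most one point. -/
def IsGr (G : Set (X × Y)) : Prop := ∀ x y y', (x, y) ∈ G → (x, y') ∈ G → y = y'

lemma IsGr.mono {G H : Set (X × Y)} (hH : IsGr H) (h : G ⊆ H) : IsGr G :=
  fun x y y' h1 h2 => hH x y y' (h h1) (h h2)

lemma analytic_inter {α : Type*} [TopologicalSpace α] [T2Space α] {s t : Set α}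
    (hs : AnalyticSet s) (ht : AnalyticSet t) : AnalyticSet (s ∩ t) := by
  rw [Set.inter_eq_iInter]
  apply AnalyticSet.iInter
  intro b
  cases b
  · exact ht
  · exact hs

section
variable [TopologicalSpace X] [PolishSpace X] [MeasurableSpace X] [BorelSpace X]
  [TopologicalSpace Y] [PolishSpace Y] [MeasurableSpace Y] [BorelSpace Y]

/-- An analytic set with sections of at most one point is contained in a Borel one. -/
lemma exists_graph_hull (A : Set (X × Y)) (hA : AnalyticSet A) (hg : IsGr A) :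
    ∃ B : Set (X × Y), MeasurableSet B ∧ IsGr B ∧ A ⊆ B := by
  classical
  let b := TopologicalSpace.countableBasis Y
  have hbc : b.Countable := TopologicalSpace.countable_countableBasis Y
  have : Countable b := hbc.to_subtype
  have hb := TopologicalSpace.isBasis_countableBasis Y
  have key : ∀ U V : Set Y, IsOpen U → IsOpen V → Disjoint U V →
      MeasurablySeparable (Prod.fst '' (A ∩ Prod.snd ⁻¹' U)) (Prod.fst '' (A ∩ Prod.snd ⁻¹' V)) := by
    intro U V hU hV hUV
    apply AnalyticSet.measurablySeparable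
    · exact (analytic_inter hA (hU.preimage continuous_snd).measurableSet.analyticSet
        ).image_of_continuous continuous_fst
    · exact (analytic_inter hA (hV.preimage continuous_snd).measurableSet.analyticSet
        ).image_of_continuous continuous_fst
    · rw [Set.disjoint_left]
      rintro _ ⟨⟨x, y⟩, ⟨h1, h2⟩, rfl⟩ ⟨⟨x', y'⟩, ⟨h3, h4⟩, h5⟩
      simp only at h5
      subst h5
      have h6 := hg _ _ _ h1 h3
      subst h6
      exact Set.disjoint_left.1 hUV h2 h4
  let I := {p : b × b // Disjoint (p.1 : Set Y) (p.2 : Set Y)}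
  have hopen : ∀ p : b, IsOpen (p : Set Y) := fun p => hb.isOpen p.2
  choose C hC1 hC2 hC3 using fun p : I => key p.1.1 p.1.2 (hopen _) (hopen _) p.2
  refine ⟨⋂ p : I, {q : X × Y | (q.2 ∈ (p.1.1 : Set Y) → q.1 ∈ C p) ∧
    (q.2 ∈ (p.1.2 : Set Y) → q.1 ∉ C p)}, ?_, ?_, ?_⟩
  · apply MeasurableSet.iInter
    intro p
    have h1 : MeasurableSet {q : X × Y | q.2 ∈ (p.1.1 : Set Y)} :=
      measurable_snd (hopen p.1.1).measurableSet
    have h2 : MeasurableSet {q : X × Y | q.2 ∈ (p.1.2 : Set Y)} :=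
      measurable_snd (hopen p.1.2).measurableSet
    have h3 : MeasurableSet {q : X × Y | q.1 ∈ C p} := measurable_fst (hC3 p)
    have : {q : X × Y | (q.2 ∈ (p.1.1 : Set Y) → q.1 ∈ C p) ∧
        (q.2 ∈ (p.1.2 : Set Y) → q.1 ∉ C p)} =
        ({q : X × Y | q.2 ∈ (p.1.1 : Set Y)}ᶜ ∪ {q : X × Y | q.1 ∈ C p}) ∩
        ({q : X × Y | q.2 ∈ (p.1.2 : Set Y)}ᶜ ∪ {q : X × Y | q.1 ∈ C p}ᶜ) := by
      ext q
      simp only [mem_ofPred_eq, mem_inter_iff, mem_union, mem_compl_iff]
      tauto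
    rw [this]
    exact (h1.compl.union h3).inter (h2.compl.union h3.compl)
  · intro x y y' h1 h2
    by_contra hne
    obtain ⟨U, V, hU, hV, hyU, hyV, hUV⟩ := t2_separation hne
    obtain ⟨U', hU', hyU', hUU'⟩ := hb.mem_nhds_iff.1 (hU.mem_nhds hyU)
    obtain ⟨V', hV', hyV', hVV'⟩ := hb.mem_nhds_iff.1 (hV.mem_nhds hyV)
    let p : I := ⟨(⟨U', hU'⟩, ⟨V', hV'⟩), hUV.mono hUU' hVV'⟩
    have h3 := (mem_iInter.1 h1 p).1 hyU'
    have h4 := (mem_iInter.1 h2 p).2 hyV'
    exact h4 h3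
  · intro q hq
    rw [mem_iInter]
    intro p
    refine ⟨?_, ?_⟩
    · intro h
      exact hC1 p ⟨q, ⟨hq, h⟩, rfl⟩
    · intro h h'
      exact Set.disjoint_left.1 (hC2 p) ⟨q, ⟨hq, h⟩, rfl⟩ h'

end

section
variable [MeasurableSpace X] [MeasurableSpace Y]

/-- Covered by countably many Borel graphs. -/
def Small (P : Set (X × Y)) : Prop :=
  ∃ G : ℕ → Set (X × Y), (∀ n, MeasurableSet (G n) ∧ IsGr (G n)) ∧ P ⊆ ⋃ n, G n

lemma Small.mono {P Q : Set (X × Y)} (hQ : Small Q) (h : P ⊆ Q) : Small P := by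
  obtain ⟨G, hG, hQG⟩ := hQ
  exact ⟨G, hG, h.trans hQG⟩

lemma small_of_graph {B : Set (X × Y)} (hB : MeasurableSet B) (hg : IsGr B) : Small B :=
  ⟨fun _ => B, fun _ => ⟨hB, hg⟩, fun _ hx => mem_iUnion.2 ⟨0, hx⟩⟩

lemma small_empty : Small (∅ : Set (X × Y)) :=
  small_of_graph MeasurableSet.empty (fun _ _ _ h => absurd h (notMem_empty _))

lemma small_iUnion {ι : Type*} [Countable ι] {P : ι → Set (X × Y)} (h : ∀ i, Small (P i)) :
    Small (⋃ i, P i) := by
  choose G hG hPG using h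
  rcases isEmpty_or_nonempty ι with hι | hι
  · rw [iUnion_of_empty]; exact small_empty
  · obtain ⟨e, he⟩ := exists_surjective_nat (ι × ℕ)
    refine ⟨fun n => G (e n).1 (e n).2, fun n => hG _ _, ?_⟩
    intro x hx
    obtain ⟨i, hi⟩ := mem_iUnion.1 hx
    obtain ⟨m, hm⟩ := mem_iUnion.1 (hPG i hi)
    obtain ⟨n, hn⟩ := he (i, m)
    refine mem_iUnion.2 ⟨n, ?_⟩
    rw [hn]; exact hm

lemma Small.union {P Q : Set (X × Y)} (hP : Small P) (hQ : Small Q) : Small (P ∪ Q) := by
  rw [union_eq_iUnion]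
  apply small_iUnion
  intro b
  cases b
  · exact hQ
  · exact hP

end

end Pool.Agent.Lib.MP_27a2ed_lc
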