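import Pool.Agent.Lib.MP_27a2ed_lc.Small

set_option autoImplicit false
set_option linter.unusedSectionVars false

namespace Pool.Agent.Lib.MP_27a2ed_lc

open MeasureTheory Set Topology

/-- The basic clopen set of sequences extending a finite list. -/
def cyl (s : List ℕ) : Set (ℕ → ℕ) := {z | ∀ i (h : i < s.length), z i = s[i]}

/-- The initial segment of a sequence, of length `n`. -/
def pre (z : ℕ → ℕ) (n : ℕ) : List ℕ := List.ofFn (fun i : Fin n => z i)

lemma pre_length (z : ℕ → ℕ) (n : ℕ) : (pre z n).length = n := by simp [pre]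

lemma mem_cyl_pre (z w : ℕ → ℕ) (n : ℕ) : w ∈ cyl (pre z n) ↔ ∀ i < n, w i = z i := by
  unfold cyl pre
  simp

lemma self_mem_cyl_pre (z : ℕ → ℕ) (n : ℕ) : z ∈ cyl (pre z n) := by
  rw [mem_cyl_pre]; intro i _; rfl

lemma cyl_pre_eq (z : ℕ → ℕ) (n : ℕ) : cyl (pre z n) = PiNat.cylinder z n := by
  ext w
  rw [mem_cyl_pre, PiNat.mem_cylinder_iff]

lemma isOpen_cyl (s : List ℕ) : IsOpen (cyl s) := by
  rcases Set.eq_empty_or_nonempty (cyl s) with h | ⟨z, hz⟩
  · rw [h]; exact isOpen_empty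
  · have : cyl s = PiNat.cylinder z s.length := by
      ext w
      rw [PiNat.mem_cylinder_iff]
      constructor
      · intro hw i hi; rw [hw i hi, hz i hi]
      · intro hw i hi; rw [hw i hi, hz i hi]
    rw [this]
    exact PiNat.isOpen_cylinder _ _ _

lemma exists_cyl_subset (z : ℕ → ℕ) {O : Set (ℕ → ℕ)} (hO : IsOpen O) (hz : z ∈ O) :
    ∃ n, ∀ m, n ≤ m → cyl (pre z m) ⊆ O := by
  obtain ⟨v, ⟨y, n, rfl⟩, h1, h2⟩ :=
    (PiNat.isTopologicalBasis_cylinders (fun _ : ℕ => ℕ)).exists_subset_of_mem_open hz hO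
  refine ⟨n, fun m hm => ?_⟩
  rw [cyl_pre_eq]
  refine (PiNat.cylinder_anti z hm).trans ?_
  rw [PiNat.mem_cylinder_iff_eq.1 h1]
  exact h2

/-- `t` is an extension of `s` strictly longer. -/
def Ext (s t : List ℕ) : Prop := s.length < t.length ∧ s <+: t

lemma Ext.cyl_subset {s t : List ℕ} (h : Ext s t) : cyl t ⊆ cyl s := by
  intro z hz i hi
  obtain ⟨r, hr⟩ := h.2
  have h1 : i < t.length := lt_trans hi h.1
  rw [hz i h1]
  subst hr
  exact List.getElem_append_left hi

lemma ext_pre {s : List ℕ} {z : ℕ → ℕ} (hz : z ∈ cyl s) {n : ℕ} (hn : s.length < n) :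
    Ext s (pre z n) := by
  refine ⟨by rw [pre_length]; exact hn, ?_⟩
  rw [List.prefix_iff_eq_take]
  apply List.ext_getElem
  · rw [List.length_take, pre_length]; omega
  · intro i h1 h2
    rw [List.getElem_take]
    have h3 := hz i h1
    simp [pre, h3]

variable {X Y : Type*}
  [TopologicalSpace X] [PolishSpace X] [MeasurableSpace X] [BorelSpace X]
  [TopologicalSpace Y] [PolishSpace Y] [MeasurableSpace Y] [BorelSpace Y]

/-- A measurable set which is null for the piece `s`. -/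
def Null (f : (ℕ → ℕ) → X × Y) (s : List ℕ) (D : Set X) : Prop :=
  MeasurableSet D ∧ Small (f '' cyl s ∩ Prod.fst ⁻¹' D)

/-- The family of pieces indexed by `I` is good. -/
def Good (f : (ℕ → ℕ) → X × Y) (V : ℕ → List ℕ) (I : Finset ℕ) : Prop :=
  ¬ ∃ D : ℕ → Set X, (∀ i ∈ I, Null f (V i) (D i)) ∧
    (⋂ i ∈ I, (fun z => (f z).1) '' cyl (V i)) ⊆ ⋃ i ∈ I, D i

lemma null_iUnion {f : (ℕ → ℕ) → X × Y} {s : List ℕ} {ι : Type*} [Countable ι] {D : ι → Set X}
    (h : ∀ i, Null f s (D i)) : Null f s (⋃ i, D i) := by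
  refine ⟨MeasurableSet.iUnion fun i => (h i).1, ?_⟩
  rw [preimage_iUnion, inter_iUnion]
  exact small_iUnion fun i => (h i).2

lemma good_nonempty {f : (ℕ → ℕ) → X × Y} {V : ℕ → List ℕ} {I : Finset ℕ} (h : Good f V I) :
    (⋂ i ∈ I, (fun z => (f z).1) '' cyl (V i)).Nonempty := by
  rw [Set.nonempty_iff_ne_empty]
  intro h0
  apply h
  refine ⟨fun _ => ∅, fun i _ => ⟨MeasurableSet.empty, ?_⟩, ?_⟩
  · simpa using small_empty
  · rw [h0]; exact empty_subset _

/-- The splitting lemma. -/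
lemma good_split {f : (ℕ → ℕ) → X × Y} (hf : Continuous f) (V : ℕ → List ℕ) (I : Finset ℕ)
    (hgood : Good f V I) (k a b : ℕ) (hk : k ∈ I) (ha : a ∉ I) (hb : b ∉ I) (hab : a ≠ b) :
    ∃ t t' : List ℕ, Ext (V k) t ∧ Ext (V k) t' ∧
      Disjoint ((fun z => (f z).2) '' cyl t) ((fun z => (f z).2) '' cyl t') ∧
      Good f (Function.update (Function.update V a t) b t')
        (insert a (insert b (I.erase k))) := by
  classical
  by_contra hcon
  push Not at hcon
  set Pr := {p : List ℕ × List ℕ // Ext (V k) p.1 ∧ Ext (V k) p.2 ∧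
    Disjoint ((fun z => (f z).2) '' cyl p.1) ((fun z => (f z).2) '' cyl p.2)} with hPr
  have hD : ∀ p : Pr, ∃ D : ℕ → Set X,
      (∀ i ∈ insert a (insert b (I.erase k)),
        Null f ((Function.update (Function.update V a p.1.1) b p.1.2) i) (D i)) ∧
      (⋂ i ∈ insert a (insert b (I.erase k)), (fun z => (f z).1) ''
        cyl ((Function.update (Function.update V a p.1.1) b p.1.2) i)) ⊆
        ⋃ i ∈ insert a (insert b (I.erase k)), D i := by
    intro p
    have := hcon p.1.1 p.1.2 p.2.1 p.2.2.1 p.2.2.2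
    unfold Good at this
    rw [not_not] at this
    exact this
  choose D hD1 hD2 using hD
  have hupd_a : ∀ p : Pr, (Function.update (Function.update V a p.1.1) b p.1.2) a = p.1.1 := by
    intro p
    rw [Function.update_of_ne hab, Function.update_self]
  have hupd_b : ∀ p : Pr, (Function.update (Function.update V a p.1.1) b p.1.2) b = p.1.2 := by
    intro p
    rw [Function.update_self]
  have hupd_i : ∀ p : Pr, ∀ i ∈ I.erase k,
      (Function.update (Function.update V a p.1.1) b p.1.2) i = V i := by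
    intro p i hi
    have hi' := (Finset.mem_erase.1 hi).2
    have hia : i ≠ a := fun h => ha (h ▸ hi')
    have hib : i ≠ b := fun h => hb (h ▸ hi')
    rw [Function.update_of_ne hib, Function.update_of_ne hia]
  -- the exceptional small set
  have hSm : Small (⋃ p : Pr, ((f '' cyl p.1.1 ∩ Prod.fst ⁻¹' (D p a)) ∪
      (f '' cyl p.1.2 ∩ Prod.fst ⁻¹' (D p b)))) := by
    apply small_iUnion
    intro p
    apply Small.union
    · have := (hD1 p a (by simp)).2
      rwa [hupd_a] at this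
    · have := (hD1 p b (by simp)).2
      rwa [hupd_b] at this
  obtain ⟨G, hG, hGc⟩ := hSm
  set 𝒢 := ⋃ n, G n with h𝒢
  have h𝒢m : MeasurableSet 𝒢 := MeasurableSet.iUnion fun n => (hG n).1
  have hDs : ∀ i ∈ I.erase k, Null f (V i) (⋃ p : Pr, D p i) := by
    intro i hi
    apply null_iUnion
    intro p
    have := hD1 p i (by
      rw [Finset.mem_insert, Finset.mem_insert]; exact Or.inr (Or.inr hi))
    rwa [hupd_i p i hi] at this
  set Ds : Set X := ⋃ i ∈ I.erase k, ⋃ p : Pr, D p i with hDsdef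
  have hDsm : MeasurableSet Ds := by
    apply Finset.measurableSet_biUnion
    intro i hi
    exact (hDs i hi).1
  set R : Set X := ⋂ i ∈ I, (fun z => (f z).1) '' cyl (V i) with hR
  have hRan : AnalyticSet R := by
    have : R = ⋂ i : I, (fun z => (f z).1) '' cyl (V i) := by
      rw [hR]
      ext x
      simp
    rw [this]
    have : Nonempty I := ⟨⟨k, hk⟩⟩
    apply AnalyticSet.iInter
    intro i
    exact (isOpen_cyl _).analyticSet_image hf.fst
  have hX'an : AnalyticSet (R ∩ Dsᶜ) := analytic_inter hRan hDsm.compl.analyticSet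
  have hPk : AnalyticSet (f '' cyl (V k)) := (isOpen_cyl _).analyticSet_image hf
  have hPan : AnalyticSet ((f '' cyl (V k) ∩ Prod.fst ⁻¹' (R ∩ Dsᶜ)) ∩ 𝒢ᶜ) :=
    analytic_inter (analytic_inter hPk (hX'an.preimage continuous_fst)) h𝒢m.compl.analyticSet
  have hPgr : IsGr ((f '' cyl (V k) ∩ Prod.fst ⁻¹' (R ∩ Dsᶜ)) ∩ 𝒢ᶜ) := by
    rintro x y y' ⟨⟨⟨z, hz, hfz⟩, hxR, hxD⟩, hxG⟩ ⟨⟨⟨z', hz', hfz'⟩, _, _⟩, hxG'⟩
    by_contra hne
    obtain ⟨U, U', hU, hU', hyU, hyU', hUU'⟩ := t2_separation hne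
    have hO : IsOpen {w : ℕ → ℕ | (f w).2 ∈ U} := hU.preimage hf.snd
    have hO' : IsOpen {w : ℕ → ℕ | (f w).2 ∈ U'} := hU'.preimage hf.snd
    obtain ⟨n, hn⟩ := exists_cyl_subset z hO (by show (f z).2 ∈ U; rw [hfz]; exact hyU)
    obtain ⟨n', hn'⟩ := exists_cyl_subset z' hO' (by show (f z').2 ∈ U'; rw [hfz']; exact hyU')
    set m := max (max n n') ((V k).length + 1) with hm
    have hmn : n ≤ m := le_trans (le_max_left _ _) (le_max_left _ _)
    have hmn' : n' ≤ m := le_trans (le_max_right _ _) (le_max_left _ _)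
    have hmk : (V k).length < m := lt_of_lt_of_le (Nat.lt_succ_self _) (le_max_right _ _)
    let p : Pr := ⟨(pre z m, pre z' m), ext_pre hz hmk, ext_pre hz' hmk, by
      rw [Set.disjoint_left]
      rintro _ ⟨w, hw, rfl⟩ ⟨w', hw', h⟩
      have h1 : (f w').2 ∈ U' := hn' m hmn' hw'
      have h2 : (f w').2 = (f w).2 := h
      rw [h2] at h1
      exact Set.disjoint_left.1 hUU' (hn m hmn hw) h1⟩
    have hxin : x ∈ ⋂ i ∈ insert a (insert b (I.erase k)), (fun z => (f z).1) ''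
        cyl ((Function.update (Function.update V a p.1.1) b p.1.2) i) := by
      rw [mem_iInter₂]
      intro i hi
      rw [Finset.mem_insert, Finset.mem_insert] at hi
      rcases hi with rfl | rfl | hi
      · rw [hupd_a]
        exact ⟨z, self_mem_cyl_pre z m, by simp only [hfz]⟩
      · rw [hupd_b]
        exact ⟨z', self_mem_cyl_pre z' m, by simp only [hfz']⟩
      · rw [hupd_i p i hi]
        rw [hR] at hxR
        exact mem_iInter₂.1 hxR i (Finset.mem_erase.1 hi).2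
    obtain ⟨i, hi, hxi⟩ := mem_iUnion₂.1 (hD2 p hxin)
    rw [Finset.mem_insert, Finset.mem_insert] at hi
    rcases hi with rfl | rfl | hi
    · apply hxG
      apply hGc
      refine mem_iUnion.2 ⟨p, Or.inl ⟨⟨z, self_mem_cyl_pre z m, hfz⟩, hxi⟩⟩
    · apply hxG'
      apply hGc
      refine mem_iUnion.2 ⟨p, Or.inr ⟨⟨z', self_mem_cyl_pre z' m, hfz'⟩, hxi⟩⟩
    · apply hxD
      exact mem_iUnion₂.2 ⟨i, hi, mem_iUnion.2 ⟨p, hxi⟩⟩
  obtain ⟨B, hBm, hBgr, hB⟩ := exists_graph_hull _ hPan hPgr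
  have hBG : MeasurableSet (B ∪ 𝒢) := hBm.union h𝒢m
  have hsep : MeasurablySeparable (R ∩ Dsᶜ) (Prod.fst '' (f '' cyl (V k) ∩ (B ∪ 𝒢)ᶜ)) := by
    apply AnalyticSet.measurablySeparable hX'an
    · exact (analytic_inter hPk hBG.compl.analyticSet).image_of_continuous continuous_fst
    · rw [Set.disjoint_left]
      rintro x hx ⟨q, ⟨hq1, hq2⟩, rfl⟩
      apply hq2
      by_cases h : q ∈ 𝒢
      · exact Or.inr h
      · exact Or.inl (hB ⟨⟨hq1, hx⟩, h⟩)
  obtain ⟨u, hu1, hu2, hu3⟩ := hsep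
  apply hgood
  refine ⟨fun i => if i = k then u else ⋃ p : Pr, D p i, ?_, ?_⟩
  · intro i hi
    by_cases h : i = k
    · subst h
      simp only [if_true]
      refine ⟨hu3, ?_⟩
      have h1 : Small (B ∪ 𝒢) := (small_of_graph hBm hBgr).union ⟨G, hG, subset_rfl⟩
      apply h1.mono
      rintro q ⟨hq1, hq2⟩
      by_contra hq3
      exact Set.disjoint_left.1 hu2 ⟨q, ⟨hq1, hq3⟩, rfl⟩ hq2
    · simp only [if_neg h]
      exact hDs i (Finset.mem_erase.2 ⟨h, hi⟩)
  · intro x hx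
    by_cases hxD : x ∈ Ds
    · rw [hDsdef] at hxD
      obtain ⟨i, hi, hxi⟩ := mem_iUnion₂.1 hxD
      obtain ⟨h1, h2⟩ := Finset.mem_erase.1 hi
      refine mem_iUnion₂.2 ⟨i, h2, ?_⟩
      simp only [if_neg h1]
      exact hxi
    · refine mem_iUnion₂.2 ⟨k, hk, ?_⟩
      simp only [if_true]
      exact hu1 ⟨hx, hxD⟩

end Pool.Agent.Lib.MP_27a2ed_lc
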